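import Mathlib
import Pool.Agent.Work.MP_446a37_lc.Rank

/-!
# Extremal circular automata are irreducible (MP_446a37_lc, Q1 for circular automata)

`act`, `IsReset`, `Extremal`, `push` and `Irreducible` are defined in
`Pool/Agent/Work/MP_446a37_lc/Aut.lean`.
-/

namespace Pool.Agent.Work.MP_446a37_lc.Old.Circular

open Pool.Agent.Work.MP_446a37_lc

/-- If an automaton is extremal and one of its letters permutes the states in a single cycle,
then it is irreducible over the complex numbers. -/
theorem result {Q A : Type} [Fintype Q] [DecidableEq Q] (δ : Q → A → Q) (hx : Extremal δ) (a : A)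
    (ha : ∀ q q' : Q, ∃ k : ℕ, act δ q (List.replicate k a) = q') : Irreducible δ :=
  circular δ hx a ha

end Pool.Agent.Work.MP_446a37_lc.Old.Circular
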