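import Mathlib
import Pool.Agent.Work.MP_446a37_lc.Simple

/-!
# Synchronizing automata with letters of rank at least n - 1 (MP_446a37_lc)

`act`, `IsReset`, `push` and `Irreducible` are defined in `Pool/Agent/Work/MP_446a37_lc/Aut.lean`,
`IsCongruence` and `IsSimple` in `Pool/Agent/Work/MP_446a37_lc/Simple.lean`.
-/

namespace Pool.Agent.Work.MP_446a37_lc.Old.RankCriterion

open Pool.Agent.Work.MP_446a37_lc Finset

/-- For a synchronizing automaton whose letters all have rank at least `n - 1`:
it is irreducible if and only if it is simple, and it is irreducible whenever the permutation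
letters generate a transitive group. -/
theorem result {Q A : Type} [Fintype Q] [DecidableEq Q] (δ : Q → A → Q)
    (hsync : ∃ u : List A, IsReset δ u)
    (hrank : ∀ c : A, Fintype.card Q ≤ (univ.image fun q => δ q c).card + 1) :
    (Irreducible δ ↔ IsSimple δ) ∧
    ((∀ p q : Q, ∃ u : List A, (∀ c ∈ u, Function.Injective fun r => δ r c) ∧ act δ p u = q) →
      Irreducible δ) :=
  ⟨⟨simple_of_irreducible δ, fun h => irreducible_of_simple δ hrank hsync h⟩,
    irreducible_of_transitive δ hrank hsync⟩

end Pool.Agent.Work.MP_446a37_lc.Old.RankCriterion
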